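import Mathlib
import Pool.Agent.H.MP_d6eb29_al.Count

open IsLocalRing Finset

namespace Pool.Agent.Results.MP_d6eb29_al.Formula

/-- The circulant matrix with first row `v`: entry `(i, j)` is `v ((j - i) mod n)`. -/
def cir {R : Type} {n : ℕ} [NeZero n] (v : Fin n → R) : Matrix (Fin n) (Fin n) R :=
  Matrix.of fun i j => v (j - i)

/-- The number of `n × n` circulant matrices over `R` with determinant `a`. -/
noncomputable def cnt (R : Type) [CommRing R] (n : ℕ) [NeZero n] (a : R) : ℕ :=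
  Nat.card {A : Matrix (Fin n) (Fin n) R // (∃ v : Fin n → R, A = cir v) ∧ A.det = a}

/-- The units of the form `x_0^(p^k) + p x_1^(p^(k-1)) + ... + p^k x_k`. -/
def H (R : Type) [CommRing R] (p k : ℕ) : Set R :=
  {a | IsUnit a ∧ ∃ x : ℕ → R, a = ∑ i ∈ range (k + 1), (p : R) ^ i * x i ^ p ^ (k - i)}

open Pool.Agent.H.MP_d6eb29_al in
theorem result (R : Type) [CommRing R] [Finite R] [IsLocalRing R] (p q : ℕ) (hp : p.Prime)
    (hq : q = Nat.card (ResidueField R)) (hpq : p ∣ q)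
    (n : ℕ) [NeZero n] (k m : ℕ) (hn : n = p ^ k * m) (hk : 1 ≤ k) (hm : ¬ p ∣ m)
    (a : R) (ha : IsUnit a) :
    (a ∉ H R p k → cnt R n a = 0) ∧
    (a ∈ H R p k → (cnt R n a : ℚ) =
      (Nat.card R : ℚ) ^ n *
        (∏ d ∈ m.divisors, (1 - 1 / (q : ℚ) ^ orderOf (q : ZMod d)) ^
          (Nat.totient d / orderOf (q : ZMod d))) / Nat.card (H R p k)) := by
  have : Fact p.Prime := ⟨hp⟩
  have hc : Nat.Coprime m p := ((Nat.Prime.coprime_iff_not_dvd hp).2 hm).symm
  have hm0 : 0 < m := Nat.pos_of_ne_zero (by rintro rfl; exact hm (dvd_zero p))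
  have : Finite (ResidueField R) := Finite.of_surjective _ (residue_surjective (R := R))
  have := Fintype.ofFinite (ResidueField R)
  have hchar : CharP (ResidueField R) p := by
    obtain ⟨r, hr⟩ := CharP.exists (ResidueField R)
    obtain ⟨f, hr1, hf⟩ := FiniteField.card (ResidueField R) r
    rw [hq, Nat.card_eq_fintype_card, hf] at hpq
    rwa [(Nat.prime_dvd_prime_iff_eq hp hr1).1 (hp.dvd_of_dvd_pow hpq)]
  obtain ⟨e, he⟩ : IsNilpotent (p : R) := by
    have h1 : (p : R) ∈ maximalIdeal R := by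
      rw [← residue_eq_zero_iff, map_natCast]; exact CharP.cast_eq_zero _ p
    obtain ⟨t, ht⟩ := IsArtinianRing.isNilpotent_jacobson_bot (R := R)
    rw [jacobson_eq_maximalIdeal ⊥ bot_ne_top] at ht
    refine ⟨t, ?_⟩
    have := Ideal.pow_mem_pow h1 t
    rwa [ht] at this
  obtain ⟨k, rfl⟩ : ∃ j, k = j + 1 := ⟨k - 1, by omega⟩
  have hH : H R p (k + 1) = {a : R | IsUnit a ∧ ∃ g : Polynomial R, DD n g = a} := by
    ext b
    refine and_congr_right fun hb => ?_
    rw [hn, image_eq p he m hm0 hc k b hb]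
    exact exists_congr fun y => eq_comm
  have hcnt : cnt R n a = Nat.card {v : Fin n → R // (cir v).det = a} := by
    symm
    apply Nat.card_congr
    refine Equiv.ofBijective (fun v => ⟨cir v.1, ⟨v.1, rfl⟩, v.2⟩) ⟨?_, ?_⟩
    · intro v w h
      exact Subtype.ext (cir_inj (congrArg Subtype.val h))
    · rintro ⟨_, ⟨v, rfl⟩, h⟩
      exact ⟨⟨v, h⟩, rfl⟩
  rw [hcnt, hH]
  constructor
  · intro h
    rw [Nat.card_eq_zero]
    left
    exact ⟨fun v => h ⟨ha, poly v.1, (DD_poly v.1).trans v.2⟩⟩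
  · rintro ⟨-, g, rfl⟩
    have h1 := units_count (R := R) p (k + 1) m hn hc
    rw [fib_count g ha, ← hq, Nat.cast_mul] at h1
    have h2 : (Nat.card {a : R | IsUnit a ∧ ∃ g : Polynomial R, DD n g = a} : ℚ) ≠ 0 := by
      have : Nonempty {a : R | IsUnit a ∧ ∃ g : Polynomial R, DD n g = a} := ⟨⟨_, ha, g, rfl⟩⟩
      exact_mod_cast Nat.card_pos.ne'
    exact eq_div_of_mul_eq h2 h1

end Pool.Agent.Results.MP_d6eb29_al.Formula
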